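import Pool.Agent.V7H76.AD.Spec

/-!
Project AD, piece LAB: the choice of a label.
-/

set_option autoImplicit false
set_option linter.all false

namespace Pool.Agent.V7H54.AD

open Finset
open scoped Classical
open Pool.Agent.V7H76.AD

theorem t_LAB : S_LAB := by
  intro P t A O lab hP hAP hOA hAO hA hbal
  have hOpos : 0 < O.card := by
    have := hA.card_pos
    omega
  obtain ⟨g0, hg0⟩ : ∃ g, g = t / P := ⟨_, rfl⟩
  obtain ⟨cnt, hcnt⟩ : ∃ cnt : ℕ → ℕ, cnt = fun β =>
    ((range t).filter (fun r => r / P = g0 ∧ lab r = β)).card := ⟨_, rfl⟩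
  obtain ⟨α, hαO, hmin⟩ := O.exists_min_image cnt (card_pos.1 hOpos)
  have hsum : ∑ β ∈ O, cnt β ≤ t % P := by
    have h1 : ∑ β ∈ O, cnt β = ((range t).filter (fun r => r / P = g0 ∧ lab r ∈ O)).card := by
      rw [card_eq_sum_card_fiberwise (f := lab) (t := O)]
      · refine sum_congr rfl fun β hβ => ?_
        rw [hcnt]
        simp only
        congr 1
        ext r
        simp only [mem_filter, mem_range]
        constructor
        · rintro ⟨h1, h2, h3⟩
          exact ⟨⟨h1, h2, h3 ▸ hβ⟩, h3⟩
        · rintro ⟨⟨h1, h2, -⟩, h3⟩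
          exact ⟨h1, h2, h3⟩
      · intro r hr
        exact (mem_filter.1 hr).2.2
    rw [h1]
    have h2 : (range t).filter (fun r => r / P = g0 ∧ lab r ∈ O) ⊆ Ico (g0 * P) t := by
      intro r hr
      rw [mem_filter, mem_range] at hr
      rw [mem_Ico]
      refine ⟨?_, hr.1⟩
      rw [← hr.2.1]
      exact Nat.div_mul_le_self r P
    refine (card_le_card h2).trans ?_
    rw [Nat.card_Ico, hg0]
    have := Nat.div_add_mod t P
    rw [mul_comm] at this
    omega
  have hmul : O.card * cnt α ≤ t % P := by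
    refine le_trans ?_ hsum
    rw [← smul_eq_mul]
    exact card_nsmul_le_sum O cnt (cnt α) hmin
  have hlt : t % P < P := Nat.mod_lt _ hP
  refine ⟨α, hαO, fun lab' hlab' hα g β hβ => ?_⟩
  have hset : (range (t + 1)).filter (fun r => r / P = g ∧ lab' r = β) ⊆
      (range t).filter (fun r => r / P = g ∧ lab r = β) ∪
        (if g = g0 ∧ β = α then {t} else ∅) := by
    intro r hr
    rw [mem_filter, mem_range] at hr
    rw [mem_union]
    obtain ⟨h1, h2, h3⟩ := hr
    rcases Nat.lt_succ_iff_lt_or_eq.1 h1 with h | h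
    · left
      rw [mem_filter, mem_range]
      exact ⟨h, h2, by rw [← hlab' r h]; exact h3⟩
    · right
      subst h
      rw [if_pos ⟨by rw [hg0]; exact h2.symm, by rw [← h3, hα]⟩]
      exact mem_singleton_self _
  have hc := (card_le_card hset).trans (card_union_le _ _)
  by_cases hgb : g = g0 ∧ β = α
  · rw [if_pos hgb, card_singleton] at hc
    obtain ⟨rfl, rfl⟩ := hgb
    have h3 : ((range t).filter (fun r => r / P = g ∧ lab r = β)).card = cnt β := by rw [hcnt]
    rw [h3] at hc
    calc _ ≤ A.card * (cnt β + 1) := Nat.mul_le_mul_left _ hc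
      _ = A.card * cnt β + A.card := by ring
      _ ≤ 2 * O.card * cnt β + P := Nat.add_le_add (Nat.mul_le_mul_right _ hAO) hAP
      _ = 2 * (O.card * cnt β) + P := by ring
      _ ≤ 3 * P := by omega
  · rw [if_neg hgb, card_empty, add_zero] at hc
    exact (Nat.mul_le_mul_left _ hc).trans (hbal g β hβ)

end Pool.Agent.V7H54.AD
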